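import Mathlib

namespace Pool.Agent.Results.MP_dfd3b8_an.NotSharp

open Complex Metric Set

/-- the class `M_{α,β}` -/
def M (α β : ℝ) : Set (ℂ → ℂ) :=
  {f | DifferentiableOn ℂ f (ball 0 1) ∧ f 0 = 0 ∧ deriv f 0 = 1 ∧ ∀ z ∈ ball (0 : ℂ) 1, z ≠ 0 →
    (β ≠ 0 → f z ≠ 0) ∧ (α + β ≠ 1 → deriv f z ≠ 0) ∧
    (α + β) / 2 < (α * (f z / z) + β * (z * deriv f z / f z) +
      (1 - α - β) * (1 + z * deriv (deriv f) z / deriv f z)).re}

/-- Taylor coefficients at the origin -/
noncomputable def coeff (f : ℂ → ℂ) (k : ℕ) : ℂ := iteratedDeriv k f 0 / k.factorial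

lemma re_pos {F : ℂ → ℂ} (hF : DifferentiableOn ℂ F (ball 0 1)) (h0 : F 0 = 1)
    (h : ∀ z ∈ ball (0 : ℂ) 1, z ≠ 0 → (F z).re = 0 → (z * deriv F z).im ≠ 0) :
    ∀ z ∈ ball (0 : ℂ) 1, 0 < (F z).re := by
  intro z1 hz1
  by_contra hn
  have hc : ContinuousOn (fun z => (F z).re) (ball 0 1) := continuous_re.comp_continuousOn hF.continuousOn
  have hs : closedBall (0 : ℂ) ‖z1‖ ⊆ ball 0 1 := closedBall_subset_ball (by simpa using hz1)
  have hK : IsCompact (closedBall (0 : ℂ) ‖z1‖ ∩ (fun z => (F z).re) ⁻¹' Iic 0) :=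
    (isCompact_closedBall _ _).of_isClosed_subset
      ((hc.mono hs).preimage_isClosed_of_isClosed isClosed_closedBall isClosed_Iic) inter_subset_left
  obtain ⟨z, ⟨hz, hz'⟩, hm⟩ := hK.exists_isMinOn ⟨z1, by simp, not_lt.1 hn⟩ continuous_norm.continuousOn
  have hz0 : z ≠ 0 := by
    rintro rfl
    simp [h0] at hz'
    linarith
  have hs' : closedBall (0 : ℂ) ‖z‖ ⊆ closedBall 0 ‖z1‖ := closedBall_subset_closedBall (by simpa using hz)
  have hge : ∀ w ∈ closedBall (0 : ℂ) ‖z‖, 0 ≤ (F w).re := by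
    rw [← closure_ball _ (norm_ne_zero_iff.2 hz0)] at hs' ⊢
    refine le_on_closure (fun w hw => ?_) continuousOn_const (hc.mono (hs'.trans hs))
    by_contra hw'
    exact (mem_ball_zero_iff.1 hw).not_ge (hm ⟨hs' (subset_closure hw), (not_le.1 hw').le⟩)
  have he : (F z).re = 0 := le_antisymm hz' (hge z (by simp))
  refine h z (hs hz) hz0 he ?_
  have d1 : HasDerivAt (fun t : ℂ => z * exp (t * I)) (z * I) 0 := by
    simpa using ((hasDerivAt_id (0 : ℂ)).mul_const I).cexp.const_mul z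
  have d2 : HasDerivAt F (deriv F z) (z * exp (0 * I)) := by
    simpa using (hF.differentiableAt (isOpen_ball.mem_nhds (hs hz))).hasDerivAt
  have d3 := (d2.comp (0 : ℂ) d1).real_of_complex (z := (0 : ℝ))
  have d4 := IsLocalMin.hasDerivAt_eq_zero (IsMinOn.isLocalMin (s := univ) (fun t _ => by
    simpa [he] using hge (z * exp (t * I)) (by simp)) Filter.univ_mem) d3
  simp only [mul_re, mul_im, I_re, I_im] at d4 ⊢
  linarith

theorem result : ∃ (α β : ℝ) (l : ℂ) (C : ℝ), α + β < 2 ∧ 5 * α + 4 * β < 6 ∧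
    C < max ((2 - α - β) / (6 - 5 * α - 4 * β)) ‖1 - l‖ ∧
    ∀ f ∈ M α β, ‖coeff f 3 - l * coeff f 2 ^ 2‖ ≤ C := by
  refine ⟨49 / 25, -24 / 25, 0, 20, by norm_num, by norm_num, lt_max_of_lt_left (by norm_num), ?_⟩
  rintro f ⟨hf, h0, h1, h⟩
  have hF := (differentiableOn_dslope (ball_mem_nhds (0 : ℂ) one_pos)).2 hf
  have e (z : ℂ) : f z = z * dslope f 0 z := by
    have := sub_smul_dslope f 0 z
    simp_all
  have hp := re_pos hF (by simpa) fun z hz hz0 hre him => by
    obtain ⟨h2, -, h3⟩ := h z hz hz0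
    have h4 : dslope f 0 z ≠ 0 := fun h' => h2 (by norm_num) (by rw [e, h', mul_zero])
    have h5 : deriv f z = dslope f 0 z + z * deriv (dslope f 0) z := by
      nth_rewrite 1 [funext e]
      simpa using ((hasDerivAt_id' z).fun_mul
        (hF.differentiableAt (isOpen_ball.mem_nhds hz)).hasDerivAt).deriv
    have h6 : z * deriv f z / f z = 1 + z * deriv (dslope f 0) z / dslope f 0 z := by
      rw [h5, e z]
      field_simp
    have h7 : f z / z = dslope f 0 z := by
      rw [e z]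
      field_simp
    have h8 : (1 - ((49 / 25 : ℝ) : ℂ) - ((-24 / 25 : ℝ) : ℂ)) = 0 := by
      push_cast
      ring
    rw [h6, h7, h8, zero_mul, add_zero, add_re, re_ofReal_mul, re_ofReal_mul, add_re, div_re, hre,
      him] at h3
    norm_num at h3
  have hb (z : ℂ) (hz : z ∈ sphere (0 : ℂ) (1 / 2)) : ‖f z‖ ≤ 5 / 2 := by
    have hz' : ‖z‖ = 1 / 2 := by simpa using hz
    have := borelCaratheodory (M := 1) one_pos hF.neg (fun w hw => by
      have := hp w hw
      simp only [Pi.neg_apply, neg_re, mem_ofPred_eq]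
      linarith) one_pos (z := z) (by simp [hz']; norm_num)
    simp only [Pi.neg_apply, norm_neg, dslope_same, h1, norm_one, hz'] at this
    rw [e, norm_mul, hz']
    linarith
  have := norm_iteratedDeriv_le_of_forall_mem_sphere_norm_le 3 (by norm_num)
    (hf.diffContOnCl_ball (closedBall_subset_ball (by norm_num))) hb
  simp only [coeff, zero_mul, sub_zero, norm_div, Complex.norm_natCast]
  norm_num [Nat.factorial] at this ⊢
  linarith

end Pool.Agent.Results.MP_dfd3b8_an.NotSharp
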